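import Pool.Agent.H34.SCG2.Grp
import Pool.Agent.H24.SCG3.Stmts6

/-!
FINE, FINN: the final theorems for even `q` and for all `q` which are not squares.
-/

set_option autoImplicit false

namespace Pool.Agent.H34.SCG3

open Matrix Pool.SCG Pool.Agent.H34.SCG2

/-- FINE: even `q`, not a square. -/
theorem fine_thm (hEUP : EUPStmt) (hEQX : EQXStmt) (hEYE : EYEStmt) (hEAR : EARStmt)
    (hDGT : DGTStmt) : FINEStmt := by
  intro F _ _ hF
  obtain ⟨-, hcube, -, -⟩ := hEAR F hF
  obtain ⟨-, -, hadm⟩ := hDGT F hcube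
  have hup := hEUP F hF
  have hex : ∃ r, HasStringC (GraphExt F) r := by
    by_cases h2 : Nat.card F = 2
    · exact ⟨3, hEQX F h2⟩
    · exact ⟨4, hEYE F hF h2⟩
  refine ⟨fun G hG hG' => ?_, fun G hG => ?_⟩
  · rw [hadm]
    constructor
    · rintro ⟨r, hr⟩
      exact (hup G r hG hG' hr).1
    · intro h
      rw [h]
      exact hex
  · obtain ⟨h3, h4⟩ := adm_between hG
    refine ⟨h3, h4, ?_⟩
    rw [hadm] at hG
    by_cases h2 : Nat.card F = 2
    · rw [if_pos h2]
      refine ⟨?_, fun r hr => (hup G r h3 h4 hr).2.2 h2⟩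
      show HasStringC G 3
      rw [hG]
      exact hEQX F h2
    · rw [if_neg h2]
      refine ⟨?_, fun r hr => (hup G r h3 h4 hr).2.1⟩
      show HasStringC G 4
      rw [hG]
      exact hEYE F hF h2

/-- FINN: all `q` which are not squares. -/
theorem finn_thm (hFINE : FINEStmt) (hFINAL : FINALStmt) : FINNStmt := by
  intro F _ _ hsq
  have : Fintype F := Fintype.ofFinite F
  by_cases h2 : (2 : F) = 0
  · exact hFINE F ⟨h2, hsq⟩
  · have hchar : ringChar F ≠ 2 := by
      intro h
      apply h2
      have h3 := ringChar.Nat.cast_ringChar (R := F)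
      rw [h] at h3
      exact_mod_cast h3
    have hodd : Odd (Nat.card F) := by
      rw [Nat.card_eq_fintype_card, Nat.odd_iff]
      exact FiniteField.odd_card_of_char_ne_two hchar
    have hne : Nat.card F ≠ 2 := by
      intro h
      rw [h] at hodd
      exact absurd hodd (by decide)
    have h1 := hFINAL F hodd hsq
    rw [if_neg hne]
    exact h1

end Pool.Agent.H34.SCG3
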