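import Pool.Agent.H67.SCG2.FINP
import Pool.Agent.H24.SCG3.Stmts6

/-!
FNNP: the final theorem for `PSL(3,F)`, all `q` which are not squares.
-/

set_option autoImplicit false

namespace Pool.Agent.H34.SCG3

open Matrix Pool.SCG Pool.Agent.H67.SCG2

/-- FNNP: the final theorem for `PSL(3,F)`. -/
theorem fnnp_thm (hFINN : FINNStmt) (hPSI : PSIStmt) (hTRN : TRNStmt) : FNNPStmt := by
  intro F _ _ hsq
  obtain ⟨h1, h2⟩ := hFINN F hsq
  have hinj := hPSI F
  have htr : ∀ (G : Subgroup (MulAut (SL3 F))) (r : ℕ),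
      HasStringC (G.map (indAut F)) r ↔ HasStringC G r :=
    fun G r => hTRN _ _ (indAut F) hinj G r
  refine ⟨?_, ?_⟩
  · intro G hInn hAut
    have hG : (G.comap (indAut F)).map (indAut F) = G := by
      apply Subgroup.map_comap_eq_self
      intro x hx
      obtain ⟨y, -, hy⟩ := hAut hx
      exact ⟨y, hy⟩
    have hi : Inn F ≤ G.comap (indAut F) := by
      rw [← Subgroup.map_le_iff_le_comap, inn_map]
      exact hInn
    have ha : G.comap (indAut F) ≤ AutG F := by
      intro x hx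
      obtain ⟨y, hy, hyx⟩ := hAut hx
      rw [← hinj hyx]
      exact hy
    have h3 := h1 _ hi ha
    rw [adm_map_iff hinj, hG] at h3
    rw [← h3]
    constructor
    · rintro ⟨r, hr⟩
      exact ⟨r, by rw [← htr, hG]; exact hr⟩
    · rintro ⟨r, hr⟩
      exact ⟨r, by rw [← hG, htr]; exact hr⟩
  · intro G hG
    have key : ∃ G' : Subgroup (MulAut (SL3 F)), G'.map (indAut F) = G := by
      rcases hG with h | ⟨P, h⟩
      · exact ⟨DiagExt F, h.symm⟩
      · exact ⟨GraphExtC P, by rw [graphExtC_map, h]⟩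
    obtain ⟨G', rfl⟩ := key
    have hadm := (adm_map_iff hinj G').2 hG
    obtain ⟨h3, h4, h5⟩ := h2 G' hadm
    refine ⟨?_, Subgroup.map_mono h4, ?_, ?_⟩
    · rw [← inn_map]
      exact Subgroup.map_mono h3
    · exact (htr G' _).2 h5.1
    · intro r hr
      exact h5.2 ((htr G' r).1 hr)

end Pool.Agent.H34.SCG3
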